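import Pool.Agent.Y448.RK.Lab

/-!
# Counting live indices and the sum over the blocks
-/

set_option autoImplicit false

namespace Pool.Agent.Y448.RK

open Pool.Agent.Y269.RK

theorem sum_blocks {M : Type} [AddCommMonoid M] (f : ℕ → M) (N n : ℕ) :
    ∑ i ∈ Finset.range (N * n), f i =
      ∑ c ∈ Finset.range N, ∑ x ∈ Finset.range n, f (c * n + x) := by
  induction N with
  | zero => simp
  | succ N ih =>
    rw [Finset.sum_range_succ, ← ih, Nat.succ_mul, Finset.sum_range_add]

theorem mm_self (l : ℕ) : mm l l = 1 := by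
  classical
  unfold mm JJ
  rw [Nat.div_self (nz_pos l)]
  have h : (Finset.range 1).filter (fun c => live (c * nz l)) = {0} := by
    ext c
    simp only [Finset.mem_filter, Finset.mem_range, Finset.mem_singleton]
    constructor
    · intro h; omega
    · rintro rfl
      rw [zero_mul]
      exact ⟨Nat.one_pos, live_zero⟩
  convert Finset.card_singleton 0

theorem mm_succ {l L : ℕ} (hl : l ≤ L) : mm l (L + 1) = (kz L - 1) * mm l L := by
  classical
  have hp := nz_pos l
  obtain ⟨N, hN⟩ := nz_dvd hl
  have hN0 : 0 < N := by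
    rcases Nat.eq_zero_or_pos N with h | h
    · have := nz_pos L
      rw [hN, h, mul_zero] at this
      omega
    · exact h
  have e1 : nz L / nz l = N := by rw [hN, Nat.mul_div_cancel_left _ hp]
  have e2 : nz (L + 1) / nz l = kz L * N := by
    rw [nz_succ, hN, mul_left_comm, Nat.mul_div_cancel_left _ hp]
  have hk := kz_ge L
  have hlive : ∀ d c', d < kz L → c' < N →
      (live ((d * N + c') * nz l) ↔ d ≠ kz L - 1 ∧ live (c' * nz l)) := by
    intro d c' hd hc'
    have e3 : (d * N + c') * nz l = d * nz L + c' * nz l := by rw [hN]; ring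
    rw [e3]
    refine live_block hd ?_
    rw [hN, mul_comm]
    exact Nat.mul_lt_mul_of_pos_left hc' hp
  unfold mm
  rw [← Finset.card_range (kz L - 1), ← Finset.card_product]
  refine Finset.card_nbij' (fun c => (c / N, c % N)) (fun p => p.1 * N + p.2) ?_ ?_ ?_ ?_
  · intro c hc
    unfold JJ at hc
    rw [e2] at hc
    obtain ⟨h1, h2⟩ := Finset.mem_filter.1 (Finset.mem_coe.1 hc)
    rw [Finset.mem_range] at h1
    have h3 : c / N < kz L := by rwa [Nat.div_lt_iff_lt_mul hN0]
    have h4 : c % N < N := Nat.mod_lt _ hN0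
    have h5 : c / N * N + c % N = c := by rw [mul_comm]; exact Nat.div_add_mod c N
    have h6 := (hlive _ _ h3 h4).1 (by rw [h5]; exact h2)
    refine Finset.mem_coe.2 (Finset.mem_product.2 ⟨Finset.mem_range.2 ?_, ?_⟩)
    · show c / N < kz L - 1
      have := h6.1
      omega
    · show c % N ∈ JJ l L
      unfold JJ
      rw [e1]
      exact Finset.mem_filter.2 ⟨Finset.mem_range.2 h4, h6.2⟩
  · rintro ⟨d, c'⟩ hp'
    obtain ⟨h1, h2⟩ := Finset.mem_product.1 (Finset.mem_coe.1 hp')
    simp only at h1 h2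
    rw [Finset.mem_range] at h1
    unfold JJ at h2
    rw [e1] at h2
    obtain ⟨h3, h4⟩ := Finset.mem_filter.1 h2
    rw [Finset.mem_range] at h3
    refine Finset.mem_coe.2 ?_
    show d * N + c' ∈ JJ l (L + 1)
    unfold JJ
    rw [e2]
    refine Finset.mem_filter.2 ⟨Finset.mem_range.2 ?_, (hlive d c' (by omega) h3).2
      ⟨by omega, h4⟩⟩
    calc d * N + c' < d * N + N := by omega
      _ = (d + 1) * N := by ring
      _ ≤ kz L * N := Nat.mul_le_mul_right _ (by omega)
  · intro c _
    show c / N * N + c % N = c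
    rw [mul_comm]; exact Nat.div_add_mod c N
  · rintro ⟨d, c'⟩ hp'
    obtain ⟨_, h2⟩ := Finset.mem_product.1 (Finset.mem_coe.1 hp')
    simp only at h2
    unfold JJ at h2
    rw [e1] at h2
    have h3 := Finset.mem_range.1 (Finset.mem_filter.1 h2).1
    show ((d * N + c') / N, (d * N + c') % N) = (d, c')
    rw [mul_comm, Nat.mul_add_div hN0, Nat.div_eq_of_lt h3, add_zero, Nat.mul_add_mod,
      Nat.mod_eq_of_lt h3]

theorem mm_lower {l L : ℕ} (hl : l ≤ L) :
    (nz L : ℝ) * (1 - 1 / (32 * nz l) * (1 / 2 ^ l - 1 / 2 ^ L)) ≤ mm l L * nz l := by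
  have hp : (0 : ℝ) < nz l := by exact_mod_cast nz_pos l
  induction L, hl using Nat.le_induction with
  | base =>
    rw [mm_self]
    simp
  | succ L hL ih =>
    rw [mm_succ hL, nz_succ]
    have hk := kz_ge L
    have hk1 : ((kz L - 1 : ℕ) : ℝ) = (kz L : ℝ) - 1 := by
      rw [Nat.cast_sub (by omega)]; simp
    push_cast
    rw [hk1]
    set x : ℝ := 1 / (32 * nz l) * (1 / 2 ^ l - 1 / 2 ^ L) with hx
    have hx0 : 0 ≤ x := by
      refine mul_nonneg (by positivity) ?_
      rw [sub_nonneg]
      exact one_div_le_one_div_of_le (by positivity) (pow_le_pow_right₀ (by norm_num) hL)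
    have hkl : (64 : ℝ) * 2 ^ L * nz l ≤ kz L := by
      have h1 : 64 * 2 ^ L * nz l ≤ kz L := by
        unfold kz
        have := Nat.mul_le_mul_left (64 * 2 ^ L) (nz_mono hL)
        omega
      exact_mod_cast h1
    have hd : 1 / (32 * (nz l : ℝ)) * (1 / 2 ^ l - 1 / 2 ^ (L + 1)) =
        x + 1 / (64 * 2 ^ L * nz l) := by
      rw [hx]
      field_simp
      ring
    rw [hd]
    have h1 : 1 ≤ (kz L : ℝ) * (1 / (64 * 2 ^ L * nz l)) := by
      rw [mul_one_div, le_div_iff₀ (by positivity), one_mul]
      exact hkl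
    have hkpos : (1 : ℝ) ≤ kz L := by exact_mod_cast (by omega : 1 ≤ kz L)
    have hnL : (0 : ℝ) < nz L := by exact_mod_cast nz_pos L
    calc (kz L : ℝ) * nz L * (1 - (x + 1 / (64 * 2 ^ L * nz l)))
        = nz L * (kz L - kz L * x - kz L * (1 / (64 * 2 ^ L * nz l))) := by ring
      _ ≤ nz L * (kz L - kz L * x - 1 + x) := by
          refine mul_le_mul_of_nonneg_left ?_ hnL.le
          linarith
      _ = (kz L - 1) * (nz L * (1 - x)) := by ring
      _ ≤ (kz L - 1) * (mm l L * nz l) := mul_le_mul_of_nonneg_left ih (by linarith)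
      _ = (kz L - 1) * mm l L * nz l := by ring

theorem mm_lower' {l L : ℕ} (hl : l ≤ L) :
    (nz L : ℝ) * (1 - 1 / (32 * 2 ^ l * nz l)) ≤ mm l L * nz l := by
  have hp : (0 : ℝ) < nz l := by exact_mod_cast nz_pos l
  have hnL : (0 : ℝ) < nz L := by exact_mod_cast nz_pos L
  refine le_trans (mul_le_mul_of_nonneg_left ?_ hnL.le) (mm_lower hl)
  have h1 : 1 / (32 * (nz l : ℝ)) * (1 / 2 ^ l - 1 / 2 ^ L) =
      1 / (32 * 2 ^ l * nz l) - 1 / (32 * nz l) * (1 / 2 ^ L) := by
    field_simp
  have h2 : 0 ≤ 1 / (32 * (nz l : ℝ)) * (1 / 2 ^ L) := by positivity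
  rw [h1]
  linarith

theorem mm_upper (l L : ℕ) : mm l L * nz l ≤ nz L := by
  classical
  refine le_trans (Nat.mul_le_mul_right _ ?_) (Nat.div_mul_le_self (nz L) (nz l))
  unfold mm JJ
  exact (Finset.card_filter_le _ _).trans (Finset.card_range _).le

theorem al_eq (l : ℕ) : al l = mm 0 l := by
  classical
  unfold al mm JJ
  rw [nz_zero, Nat.div_one]
  simp only [mul_one]

theorem al_le (l : ℕ) : al l ≤ nz l := by
  classical
  unfold al
  exact (Finset.card_filter_le _ _).trans (Finset.card_range _).le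

theorem hh_ge (i : ℕ) (p : PT) : 1 ≤ hh i p := by
  unfold hh
  have := ((DD i p).u 0).2.1
  linarith

theorem hh_le (i : ℕ) (p : PT) : hh i p ≤ 2 := by
  unfold hh
  have := ((DD i p).u 0).2.2
  linarith

theorem HH0_bd (l : ℕ) : (nz l : ℝ) ≤ HH0 l ∧ HH0 l ≤ nz l + (nz l - al l) := by
  classical
  unfold HH0
  constructor
  · calc (nz l : ℝ) = ∑ i ∈ Finset.range (nz l), (1 : ℝ) := by simp
      _ ≤ _ := by
        refine Finset.sum_le_sum fun i _ => ?_
        split_ifs
        · exact le_rfl
        · exact hh_ge _ _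
  · have h1 : (al l : ℝ) = ∑ i ∈ Finset.range (nz l), if live i then (1 : ℝ) else 0 := by
      rw [Finset.sum_boole]
      rfl
    have h2 : (nz l : ℝ) = ∑ i ∈ Finset.range (nz l), (1 : ℝ) := by simp
    rw [h1]
    conv_rhs => rw [h2]
    rw [← Finset.sum_sub_distrib, ← Finset.sum_add_distrib]
    refine Finset.sum_le_sum fun i _ => ?_
    split_ifs
    · norm_num
    · have := hh_le i (pc 0)
      linarith

/-- the number of indices in live blocks -/
theorem live_count {l L : ℕ} (hl : l ≤ L) (f : ℕ → ℝ) :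
    ∑ i ∈ Finset.range (nz L), f i =
      ∑ c ∈ Finset.range (nz L / nz l), ∑ x ∈ Finset.range (nz l), f (c * nz l + x) := by
  rw [← sum_blocks, Nat.div_mul_cancel (nz_dvd hl)]

theorem CC_bd {l L : ℕ} (hl : l ≤ L) : 0 ≤ CC l L ∧ CC l L ≤ 2 * (nz L - mm l L * nz l) := by
  classical
  unfold CC
  constructor
  · refine Finset.sum_nonneg fun i _ => ?_
    split_ifs
    · exact le_rfl
    · have := hh_ge i (pc 0)
      linarith
  · have h1 : (mm l L : ℝ) * nz l =
        ∑ i ∈ Finset.range (nz L), if live (nz l * (i / nz l)) then (1 : ℝ) else 0 := by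
      rw [live_count hl]
      have h2 : ∀ c ∈ Finset.range (nz L / nz l), (∑ x ∈ Finset.range (nz l),
          if live (nz l * ((c * nz l + x) / nz l)) then (1 : ℝ) else 0) =
          (if live (c * nz l) then (1 : ℝ) else 0) * nz l := by
        intro c _
        have h3 : ∀ x ∈ Finset.range (nz l),
            (if live (nz l * ((c * nz l + x) / nz l)) then (1 : ℝ) else 0) =
            (if live (c * nz l) then (1 : ℝ) else 0) := by
          intro x hx
          rw [div_block c (Finset.mem_range.1 hx), mul_comm]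
        rw [Finset.sum_congr rfl h3, Finset.sum_const, Finset.card_range, nsmul_eq_mul, mul_comm]
      rw [Finset.sum_congr rfl h2, ← Finset.sum_mul, Finset.sum_boole]
      rfl
    have h2 : (nz L : ℝ) = ∑ i ∈ Finset.range (nz L), (1 : ℝ) := by simp
    rw [h1]
    conv_rhs => rw [h2]
    rw [← Finset.sum_sub_distrib, Finset.mul_sum]
    refine Finset.sum_le_sum fun i _ => ?_
    split_ifs
    · norm_num
    · have := hh_le i (pc 0)
      linarith

theorem cnt : S_CNT := by
  refine ⟨fun l L hl => mm_lower' hl, fun l L _ => mm_upper l L, fun l => ?_, al_le, HH0_bd,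
    fun l L hl => CC_bd hl⟩
  have h := mm_lower' (Nat.zero_le l)
  rw [nz_zero] at h
  rw [al_eq]
  norm_num at h ⊢
  linarith

/-- the evaluation points in a live block -/
theorem DD_shift {L : ℕ} : ∀ {s x : ℕ} (p : PT), nz L ∣ s → live s → x < nz L →
    DD (s + x) p = DD x (shift s p) := by
  intro s
  induction s using Nat.strong_induction_on with
  | _ s ih =>
    intro x p hs hls hx
    by_cases hs0 : s = 0
    · subst hs0
      rw [zero_add, shift_zero]
    · set m := lv s with hm
      have h1 := lv_le hs0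
      have h2 := lt_lv s
      rw [← hm] at h1 h2
      have hLm : L ≤ m := by
        by_contra hcon
        push Not at hcon
        have h3 : nz L ≤ s := Nat.le_of_dvd (Nat.pos_of_ne_zero hs0) hs
        have h4 := nz_mono (show m + 1 ≤ L from hcon)
        omega
      have hd := nz_dvd hLm
      set c := s / nz m with hc
      set r := s % nz m with hr
      have e1 : s = c * nz m + r := by rw [hc, hr, mul_comm]; exact (Nat.div_add_mod s _).symm
      have hrlt : r < nz m := Nat.mod_lt _ (nz_pos m)
      have hcl : c < kz m := div_lt_kz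
      have hdr : nz L ∣ r := by rw [hr]; exact (Nat.dvd_mod_iff hd).mpr hs
      have hrx : r + x < nz m := by
        obtain ⟨a, ha⟩ := hdr
        obtain ⟨b, hb⟩ := hd
        rw [ha, hb] at hrlt ⊢
        have h5 : a < b := lt_of_mul_lt_mul_left hrlt (Nat.zero_le _)
        calc nz L * a + x < nz L * a + nz L := by omega
          _ = nz L * (a + 1) := by ring
          _ ≤ nz L * b := Nat.mul_le_mul_left _ h5
      have hrs : r < s := mod_lt_self hs0
      have e2 : s + x = c * nz m + (r + x) := by omega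
      have h6 : c ≠ kz m - 1 ∧ live r := by
        have h7 := live_block (m := m) (c := c) (x := r) hcl hrlt
        rw [← e1] at h7
        exact h7.1 hls
      rw [e2, DD_block hcl hrx, ih r hrs _ hdr h6.2 hx]
      unfold tr
      rw [if_neg h6.1, shift_shift, ← e1]

theorem sumb : S_SUM := by
  classical
  intro l L p t hl ht
  have hpl := nz_pos l
  rw [live_count hl]
  have hCC : CC l L = ∑ c ∈ Finset.range (nz L / nz l),
      if live (c * nz l) then 0 else ∑ x ∈ Finset.range (nz l), hh (c * nz l + x) (pc 0) := by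
    unfold CC
    rw [live_count hl]
    refine Finset.sum_congr rfl fun c _ => ?_
    have h3 : ∀ x ∈ Finset.range (nz l),
        (if live (nz l * ((c * nz l + x) / nz l)) then (0 : ℝ) else hh (c * nz l + x) (pc 0)) =
        (if live (c * nz l) then (0 : ℝ) else hh (c * nz l + x) (pc 0)) := by
      intro x hx
      rw [div_block c (Finset.mem_range.1 hx), mul_comm]
    rw [Finset.sum_congr rfl h3]
    split_ifs
    · simp
    · rfl
  have hlive : ∀ c ∈ Finset.range (nz L / nz l), live (c * nz l) →
      ∑ x ∈ Finset.range (nz l), hh (c * nz l + x) p =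
        HH0 l + al l * (p.u (c * nz l) : ℝ) := by
    intro c hc hlc
    have hcJ : c ∈ JJ l L := by
      unfold JJ
      exact Finset.mem_filter.2 ⟨hc, hlc⟩
    obtain ⟨c0, hc0⟩ : ∃ c0, cx l L c0 = c := by
      have h1 : c ∈ Set.range ((JJ l L).orderEmbOfFin rfl) := by
        rw [Finset.range_orderEmbOfFin]
        exact Finset.mem_coe.2 hcJ
      exact h1
    have hu : ∀ x < nz l, (p.u (c * nz l + x) : ℝ) = (p.u (c * nz l) : ℝ) := by
      intro x hx
      have h1 := ht c0 x hx
      have h2 := ht c0 0 hpl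
      rw [hc0] at h1 h2
      rw [add_zero] at h2
      rw [h1, h2]
    have h1 : (al l : ℝ) * (p.u (c * nz l) : ℝ) =
        ∑ i ∈ Finset.range (nz l), if live i then (p.u (c * nz l) : ℝ) else 0 := by
      rw [← Finset.sum_filter, Finset.sum_const, nsmul_eq_mul]
      rfl
    rw [h1]
    unfold HH0
    rw [← Finset.sum_add_distrib]
    refine Finset.sum_congr rfl fun x hx => ?_
    have hx' := Finset.mem_range.1 hx
    by_cases hlx : live x
    · rw [if_pos hlx, if_pos hlx]
      have h2 : live (c * nz l + x) := (live_split (dvd_mul_left _ _) hx').2 ⟨hlc, hlx⟩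
      unfold hh
      rw [DD_live h2]
      show 1 + ((p.u (c * nz l + x + 0) : ℝ)) = _
      rw [add_zero, hu x hx']
    · rw [if_neg hlx, if_neg hlx, add_zero]
      unfold hh
      rw [DD_shift p (dvd_mul_left _ _) hlc hx', DD_dead hlx _ (pc 0)]
  have hdead : ∀ c, ¬ live (c * nz l) →
      ∑ x ∈ Finset.range (nz l), hh (c * nz l + x) p =
        ∑ x ∈ Finset.range (nz l), hh (c * nz l + x) (pc 0) := by
    intro c hlc
    refine Finset.sum_congr rfl fun x hx => ?_
    have hx' := Finset.mem_range.1 hx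
    have h2 : ¬ live (c * nz l + x) := fun h => hlc ((live_split (dvd_mul_left _ _) hx').1 h).1
    unfold hh
    rw [DD_dead h2 p (pc 0)]
  have h1 : ∑ c ∈ Finset.range (nz L / nz l), ∑ x ∈ Finset.range (nz l), hh (c * nz l + x) p =
      ∑ c ∈ Finset.range (nz L / nz l),
        ((if live (c * nz l) then HH0 l + al l * (p.u (c * nz l) : ℝ) else 0) +
        if live (c * nz l) then 0 else
          ∑ x ∈ Finset.range (nz l), hh (c * nz l + x) (pc 0)) := by
    refine Finset.sum_congr rfl fun c hc => ?_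
    by_cases hlc : live (c * nz l)
    · rw [if_pos hlc, if_pos hlc, add_zero, hlive c hc hlc]
    · rw [if_neg hlc, if_neg hlc, zero_add, hdead c hlc]
  rw [h1, Finset.sum_add_distrib, ← hCC]
  congr 1
  rw [← Finset.sum_filter]
  show ∑ c ∈ JJ l L, (HH0 l + al l * (p.u (c * nz l) : ℝ)) = _
  rw [Finset.sum_add_distrib, Finset.sum_const, nsmul_eq_mul, ← Finset.mul_sum]
  congr 2
  symm
  refine Finset.sum_bij (fun c _ => cx l L c) (fun c _ => cx_mem l L c)
    (fun a _ b _ h => cx_inj l L h) ?_ ?_
  · intro c hc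
    have h1 : c ∈ Set.range ((JJ l L).orderEmbOfFin rfl) := by
      rw [Finset.range_orderEmbOfFin]
      exact Finset.mem_coe.2 hc
    obtain ⟨c0, hc0⟩ := h1
    exact ⟨c0, Finset.mem_univ _, hc0⟩
  · intro c _
    have h2 := ht c 0 hpl
    rw [add_zero] at h2
    exact h2.symm

end Pool.Agent.Y448.RK
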