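import Pool.Agent.Y269.RK.Stm2

/-!
# The parities separate the blocks; bound for the dimensions of the spheres
-/

set_option autoImplicit false

namespace Pool.Agent.Y448.RK

open Pool.Agent.Y269.RK

theorem cx_mem (l L : ℕ) (c : Fin (mm l L)) : cx l L c ∈ JJ l L :=
  Finset.orderEmbOfFin_mem _ _ _

theorem cx_live (l L : ℕ) (c : Fin (mm l L)) : live (cx l L c * nz l) := by
  classical
  have h := cx_mem l L c
  unfold JJ at h
  exact (Finset.mem_filter.1 h).2

theorem cx_lt {l L : ℕ} (hl : l ≤ L) (c : Fin (mm l L)) : cx l L c * nz l < nz L := by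
  classical
  have h := cx_mem l L c
  unfold JJ at h
  have h1 := Finset.mem_range.1 (Finset.mem_filter.1 h).1
  obtain ⟨n, hn⟩ := nz_dvd hl
  rw [hn, Nat.mul_div_cancel_left _ (nz_pos l)] at h1
  rw [hn, mul_comm]
  exact Nat.mul_lt_mul_of_pos_left h1 (nz_pos l)

theorem cx_inj (l L : ℕ) {c c' : Fin (mm l L)} (h : cx l L c = cx l L c') : c = c' :=
  ((JJ l L).orderEmbOfFin rfl).injective h

/-- the last level at which the high parts differ -/
theorem exists_level {L a a' : ℕ} (ha : a < nz L) (ha' : a' < nz L) :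
    ∀ k l : ℕ, l + k = L → a / nz l ≠ a' / nz l →
      ∃ l', l ≤ l' ∧ l' < L ∧ a / nz l' ≠ a' / nz l' ∧ a / nz (l' + 1) = a' / nz (l' + 1) := by
  intro k
  induction k with
  | zero =>
    intro l hl h
    rw [add_zero] at hl
    subst hl
    rw [Nat.div_eq_of_lt ha, Nat.div_eq_of_lt ha'] at h
    exact absurd rfl h
  | succ k ih =>
    intro l hl h
    by_cases h1 : a / nz (l + 1) = a' / nz (l + 1)
    · exact ⟨l, le_rfl, by omega, h, h1⟩
    · obtain ⟨l', h2, h3, h4, h5⟩ := ih (l + 1) (by omega) h1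
      exact ⟨l', by omega, h3, h4, h5⟩

theorem div_succ (a l : ℕ) : a / nz (l + 1) = a / nz l / kz l := by
  rw [nz_succ, mul_comm, Nat.div_div_eq_div_mul]

theorem inb_div {l s a : ℕ} (hs : nz l ∣ s) (h : inb l s a) : a / nz l = s / nz l := by
  obtain ⟨n, rfl⟩ := hs
  unfold inb at h
  have hp := nz_pos l
  rw [Nat.mul_div_cancel_left _ hp]
  rw [Nat.div_eq_iff hp]
  constructor
  · rw [mul_comm]; exact h.1
  · rw [mul_comm]; omega

/-- the sphere which separates, one side -/
theorem sphere_one {L l' a a' : ℕ} (ha : a < nz L) (hla : live a)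
    (h1 : a / nz l' ≠ a' / nz l') (hd : a / nz l' % kz l' ≠ 0) :
    ∃ s < nz L, good l' s ∧ inb l' s a ∧ ¬ inb l' s a' := by
  have hp := nz_pos l'
  have hle : nz l' * (a / nz l') ≤ a := Nat.mul_div_le a (nz l')
  refine ⟨nz l' * (a / nz l'), lt_of_le_of_lt hle ha, ⟨dvd_mul_right _ _, ?_, ?_⟩, ?_, ?_⟩
  · have h2 := live_split (L := l') (s := nz l' * (a / nz l')) (x := a % nz l')
      (dvd_mul_right _ _) (Nat.mod_lt _ hp)
    rw [Nat.div_add_mod] at h2
    exact (h2.1 hla).1
  · rw [Nat.mul_div_cancel_left _ hp]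
    exact hd
  · unfold inb
    refine ⟨hle, ?_⟩
    have := Nat.div_add_mod a (nz l')
    have := Nat.mod_lt a hp
    omega
  · intro h
    have h2 := inb_div (dvd_mul_right _ _) h
    rw [Nat.mul_div_cancel_left _ hp] at h2
    exact h1 h2.symm

/-- the sphere which separates -/
theorem sphere {L l' a a' : ℕ} (ha : a < nz L) (hla : live a) (ha' : a' < nz L) (hla' : live a')
    (h1 : a / nz l' ≠ a' / nz l') (h2 : a / nz (l' + 1) = a' / nz (l' + 1)) :
    ∃ s < nz L, good l' s ∧ ¬ (inb l' s a ↔ inb l' s a') := by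
  by_cases hd : a / nz l' % kz l' = 0
  · by_cases hd' : a' / nz l' % kz l' = 0
    · exfalso
      rw [div_succ, div_succ] at h2
      have e1 := Nat.div_add_mod (a / nz l') (kz l')
      have e2 := Nat.div_add_mod (a' / nz l') (kz l')
      rw [hd] at e1
      rw [hd'] at e2
      apply h1
      rw [← e1, ← e2, h2]
    · obtain ⟨s, hs, hg, hi, hi'⟩ := sphere_one ha' hla' (Ne.symm h1) hd'
      exact ⟨s, hs, hg, fun h => hi' (h.2 hi)⟩
  · obtain ⟨s, hs, hg, hi, hi'⟩ := sphere_one ha hla h1 hd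
    exact ⟨s, hs, hg, fun h => hi' (h.1 hi)⟩

/-- a differing parity at a level at least `l0` -/
theorem exists_par {l l0 L : ℕ} (hl : l ≤ l0) (hL : l0 ≤ L) {c c' : Fin (mm l L)}
    (h : cx l L c * nz l / nz l0 ≠ cx l L c' * nz l / nz l0) :
    ∃ k < KK l L, l0 - l ≤ k / nz L ∧ parf l L k c ≠ parf l L k c' := by
  have hlL : l ≤ L := hl.trans hL
  have ha := cx_lt hlL c
  have ha' := cx_lt hlL c'
  obtain ⟨l', h1, h2, h3, h4⟩ := exists_level ha ha' (L - l0) l0 (by omega) h
  obtain ⟨s, hs, hg, hi⟩ := sphere ha (cx_live l L c) ha' (cx_live l L c') h3 h4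
  have hp := nz_pos L
  have e1 : ((l' - l) * nz L + s) / nz L = l' - l := by
    rw [mul_comm, Nat.mul_add_div hp, Nat.div_eq_of_lt hs, add_zero]
  have e2 : ((l' - l) * nz L + s) % nz L = s := by
    rw [mul_comm, Nat.mul_add_mod, Nat.mod_eq_of_lt hs]
  refine ⟨(l' - l) * nz L + s, ?_, ?_, ?_⟩
  · unfold KK
    calc (l' - l) * nz L + s < (l' - l) * nz L + nz L := by omega
      _ = (l' - l + 1) * nz L := by ring
      _ ≤ (L - l) * nz L := Nat.mul_le_mul_right _ (by omega)
  · rw [e1]; omega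
  · unfold parf
    rw [e1, e2, show l + (l' - l) = l' by omega]
    by_cases hc : inb l' s (cx l L c * nz l)
    · have hc' : ¬ inb l' s (cx l L c' * nz l) := fun h' => hi ⟨fun _ => h', fun _ => hc⟩
      rw [if_pos ⟨hg, hc⟩, if_neg (fun h' => hc' h'.2)]
      decide
    · have hc' : inb l' s (cx l L c' * nz l) := by
        by_contra h'
        exact hi ⟨fun h'' => absurd h'' hc, fun h'' => absurd h'' h'⟩
      rw [if_neg (fun h' => hc h'.2), if_pos ⟨hg, hc'⟩]
      decide

theorem lab1 : S_LAB1 := by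
  intro l L hl c c' hc
  have hp := nz_pos l
  have h : cx l L c * nz l / nz l ≠ cx l L c' * nz l / nz l := by
    rw [Nat.mul_div_cancel _ hp, Nat.mul_div_cancel _ hp]
    exact fun h => hc (cx_inj l L h)
  obtain ⟨k, hk, _, h2⟩ := exists_par le_rfl hl h
  exact ⟨k, hk, h2⟩

theorem card_A {l l' L s : ℕ} (hl : l ≤ l') (hs : nz l' ∣ s) :
    (Finset.univ.filter fun c : Fin (mm l L) => inb l' s (cx l L c * nz l)).card ≤
      nz l' / nz l := by
  have hp := nz_pos l
  obtain ⟨n, hn⟩ := nz_dvd hl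
  obtain ⟨t, ht⟩ := (nz_dvd hl).trans hs
  rw [hn, Nat.mul_div_cancel_left _ hp]
  have h1 : (Finset.Ico t (t + n)).card = n := by rw [Nat.card_Ico]; omega
  conv_rhs => rw [← h1]
  refine Finset.card_le_card_of_injOn (fun c => cx l L c) ?_ (fun a _ b _ h => cx_inj l L h)
  intro c hc
  have h2 := (Finset.mem_filter.1 (Finset.mem_coe.1 hc)).2
  unfold inb at h2
  rw [hn, ht, ← mul_add, mul_comm (cx l L c)] at h2
  exact Finset.mem_coe.2 (Finset.mem_Ico.2
    ⟨Nat.le_of_mul_le_mul_left h2.1 hp, Nat.lt_of_mul_lt_mul_left h2.2⟩)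

theorem card_B {l l' L e : ℕ} (hl : l ≤ l') :
    (Finset.univ.filter fun c : Fin (mm l L) => cx l L c * nz l / nz l' = e).card ≤
      nz l' / nz l := by
  have hp := nz_pos l
  obtain ⟨n, hn⟩ := nz_dvd hl
  have hn0 : 0 < n := by
    rcases Nat.eq_zero_or_pos n with h | h
    · have := nz_pos l'
      rw [hn, h, mul_zero] at this
      omega
    · exact h
  rw [hn, Nat.mul_div_cancel_left _ hp]
  have h1 : (Finset.Ico (e * n) (e * n + n)).card = n := by rw [Nat.card_Ico]; omega
  conv_rhs => rw [← h1]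
  refine Finset.card_le_card_of_injOn (fun c => cx l L c) ?_ (fun a _ b _ h => cx_inj l L h)
  intro c hc
  have h2 := (Finset.mem_filter.1 (Finset.mem_coe.1 hc)).2
  rw [mul_comm (cx l L c), Nat.mul_div_mul_left _ _ hp] at h2
  have e1 := Nat.div_add_mod (cx l L c) n
  have e2 := Nat.mod_lt (cx l L c) hn0
  rw [h2, mul_comm] at e1
  exact Finset.mem_coe.2 (Finset.mem_Ico.2 ⟨by show e * n ≤ cx l L c; omega,
    by show cx l L c < e * n + n; omega⟩)

theorem lab2 : S_LAB2 := by
  classical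
  intro l L M k hl hM hk
  have hpL := nz_pos L
  have hkL : k / nz L < L - l := by
    rw [Nat.div_lt_iff_lt_mul hpL]
    exact hk
  set l' := l + k / nz L with hl'
  set s := k % nz L with hs
  have hll' : l ≤ l' := Nat.le_add_right _ _
  have hl'L : l' + 1 ≤ L := by omega
  unfold nsp dd
  refine max_le ?_ ?_
  · have := nz_pos (l' + 1)
    nlinarith
  set A : Finset (Fin (mm l L)) :=
    Finset.univ.filter fun c : Fin (mm l L) => inb l' s (cx l L c * nz l) with hA
  set B : Finset (Fin (mm l L)) :=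
    Finset.univ.filter fun c : Fin (mm l L) =>
      cx l L c * nz l / nz (l' + 1) = s / nz (l' + 1) with hB
  set P : Finset (Fin (mm l L) × Fin (mm l L)) :=
    Finset.univ.filter fun p : Fin (mm l L) × Fin (mm l L) =>
      p.1 < p.2 ∧ lead (parf l L) (KK l L) p.1 p.2 = k with hP
  have key : ∀ p ∈ P, nz l' ∣ s ∧ (p ∈ A ×ˢ B ∨ p ∈ B ×ˢ A) := by
    intro p hp
    obtain ⟨h1, h2⟩ := (Finset.mem_filter.1 hp).2
    obtain ⟨k0, hk0, h3⟩ := lab1 l L hl p.1 p.2 h1.ne
    have h4 : parf l L k p.1 ≠ parf l L k p.2 := by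
      have h5 := Nat.findGreatest_spec (P := fun k => parf l L k p.1 ≠ parf l L k p.2)
        (show k0 ≤ KK l L - 1 by omega) h3
      rw [← h2]
      exact h5
    have h5 : cx l L p.1 * nz l / nz (l' + 1) = cx l L p.2 * nz l / nz (l' + 1) := by
      by_contra h6
      obtain ⟨k1, hk1, h7, h8⟩ := exists_par (show l ≤ l' + 1 by omega) hl'L h6
      have h9 : k1 ≤ k := by
        rw [← h2]
        exact Nat.le_findGreatest (P := fun k => parf l L k p.1 ≠ parf l L k p.2)
          (show k1 ≤ KK l L - 1 by omega) h8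
      have h10 := Nat.div_le_div_right (c := nz L) h9
      omega
    unfold parf at h4
    rw [← hl', ← hs] at h4
    by_cases hg : good l' s
    · refine ⟨hg.1, ?_⟩
      by_cases hc : inb l' s (cx l L p.1 * nz l)
      · left
        refine Finset.mem_product.2 ⟨Finset.mem_filter.2 ⟨Finset.mem_univ _, hc⟩,
          Finset.mem_filter.2 ⟨Finset.mem_univ _, ?_⟩⟩
        rw [← h5, div_succ, div_succ, inb_div hg.1 hc]
      · by_cases hc' : inb l' s (cx l L p.2 * nz l)
        · right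
          refine Finset.mem_product.2 ⟨Finset.mem_filter.2 ⟨Finset.mem_univ _, ?_⟩,
            Finset.mem_filter.2 ⟨Finset.mem_univ _, hc'⟩⟩
          rw [h5, div_succ, div_succ, inb_div hg.1 hc']
        · rw [if_neg (fun h' => hc h'.2), if_neg (fun h' => hc' h'.2)] at h4
          exact absurd rfl h4
    · rw [if_neg (fun h' => hg h'.1), if_neg (fun h' => hg h'.1)] at h4
      exact absurd rfl h4
  rcases P.eq_empty_or_nonempty with h0 | ⟨p0, hp0⟩
  · rw [h0, Finset.card_empty, mul_zero]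
    exact Nat.zero_le _
  have hdvd := (key p0 hp0).1
  have hsub : P ⊆ (A ×ˢ B) ∪ (B ×ˢ A) := fun p hp => Finset.mem_union.2 (key p hp).2
  have hcard : P.card ≤ 2 * (A.card * B.card) := by
    refine (Finset.card_le_card hsub).trans ((Finset.card_union_le _ _).trans ?_)
    rw [Finset.card_product, Finset.card_product]
    nlinarith
  have hcA : A.card ≤ nz l' / nz l := card_A hll' hdvd
  have hcB : B.card ≤ nz (l' + 1) / nz l := card_B (by omega)
  obtain ⟨n0, hn0⟩ := nz_dvd hll'
  obtain ⟨n1, hn1⟩ := nz_dvd (show l ≤ l' + 1 by omega)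
  have hp := nz_pos l
  rw [hn0, Nat.mul_div_cancel_left _ hp] at hcA
  rw [hn1, Nat.mul_div_cancel_left _ hp] at hcB
  have hmono := nz_mono (show l' ≤ l' + 1 by omega)
  calc 2 * M ^ 2 * P.card ≤ 2 * (5 * nz l) ^ 2 * (2 * (n0 * n1)) := by
        refine Nat.mul_le_mul (Nat.mul_le_mul_left _ (Nat.pow_le_pow_left hM 2)) ?_
        exact hcard.trans (Nat.mul_le_mul_left _ (Nat.mul_le_mul hcA hcB))
    _ = 100 * ((nz l * n0) * (nz l * n1)) := by ring
    _ = 100 * (nz l' * nz (l' + 1)) := by rw [← hn0, ← hn1]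
    _ ≤ 100 * nz (l' + 1) ^ 2 := by
        rw [sq]
        exact Nat.mul_le_mul_left _ (Nat.mul_le_mul_right _ hmono)

end Pool.Agent.Y448.RK
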