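import Pool.Agent.Y269.RK.Stm2

/-!
# Two spectral lemmas for positive semidefinite matrices
-/

set_option autoImplicit false

namespace Pool.Agent.Y448.RK

open Pool.Agent.Y269.RK
open scoped ComplexOrder Matrix

/-- the spectral data of a positive semidefinite matrix -/
structure SD {I : Type} [Fintype I] [DecidableEq I] (X U : Matrix I I ℂ) (l : I → ℝ) : Prop where
  nonneg : ∀ j, 0 ≤ l j
  su : star U * U = 1
  us : U * star U = 1
  eq : X = U * Matrix.diagonal (fun j => (l j : ℂ)) * star U

section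

variable {I : Type} [Fintype I] [DecidableEq I]

theorem exists_SD {X : Matrix I I ℂ} (hX : X.PosSemidef) : ∃ U l, SD X U l := by
  refine ⟨(hX.isHermitian.eigenvectorUnitary : Matrix I I ℂ), hX.isHermitian.eigenvalues,
    fun j => hX.eigenvalues_nonneg j, ?_, ?_, ?_⟩
  · exact Unitary.coe_star_mul_self _
  · exact Unitary.coe_mul_star_self _
  · have h := hX.isHermitian.spectral_theorem
    rw [Unitary.conjStarAlgAut_apply] at h
    exact h

variable {X U : Matrix I I ℂ} {l : I → ℝ}

theorem SD.pow (h : SD X U l) (k : ℕ) :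
    X ^ k = U * Matrix.diagonal (fun j => ((l j ^ k : ℝ) : ℂ)) * star U := by
  induction k with
  | zero =>
    simp [h.us]
  | succ k ih =>
    rw [pow_succ, ih]
    conv_lhs => rw [h.eq]
    calc U * Matrix.diagonal (fun j => ((l j ^ k : ℝ) : ℂ)) * star U *
          (U * Matrix.diagonal (fun j => (l j : ℂ)) * star U)
        = U * Matrix.diagonal (fun j => ((l j ^ k : ℝ) : ℂ)) * (star U * U) *
            Matrix.diagonal (fun j => (l j : ℂ)) * star U := by simp only [Matrix.mul_assoc]
      _ = _ := by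
        rw [h.su, Matrix.mul_one, Matrix.mul_assoc U, Matrix.diagonal_mul_diagonal]
        congr 3
        funext j
        push_cast
        rw [pow_succ]

theorem SD.form (h : SD X U l) (k : ℕ) (v : I → ℂ) :
    (herm (X ^ k) v v).re = ∑ j, l j ^ k * ‖(star U).mulVec v j‖ ^ 2 := by
  rw [h.pow k, herm]
  rw [← Matrix.mulVec_mulVec, ← Matrix.mulVec_mulVec, Matrix.dotProduct_mulVec]
  have e : star v ᵥ* U = star ((star U).mulVec v) := by
    rw [Matrix.star_mulVec, Matrix.star_eq_conjTranspose, Matrix.conjTranspose_conjTranspose]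
  rw [e, dotProduct, Complex.re_sum]
  refine Finset.sum_congr rfl fun j _ => ?_
  rw [Matrix.mulVec_diagonal, Pi.star_apply, Complex.star_def, mul_left_comm, ← Complex.normSq_eq_conj_mul_self, ← Complex.ofReal_mul,
    Complex.ofReal_re, Complex.normSq_eq_norm_sq]

theorem SD.nrm (h : SD X U l) (v : I → ℂ) :
    ∑ j, ‖(star U).mulVec v j‖ ^ 2 = ∑ i, ‖v i‖ ^ 2 := by
  have h0 := h.form 0 v
  simp only [pow_zero, one_mul] at h0
  rw [← h0, herm, Matrix.one_mulVec, dotProduct, Complex.re_sum]
  refine Finset.sum_congr rfl fun j _ => ?_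
  rw [Pi.star_apply, Complex.star_def, ← Complex.normSq_eq_conj_mul_self, Complex.ofReal_re,
    Complex.normSq_eq_norm_sq]

theorem SD.col (h : SD X U l) (j : I) : ∑ i, ‖U i j‖ ^ 2 = 1 := by
  have h1 := congrFun (congrFun h.su j) j
  rw [Matrix.mul_apply, Matrix.one_apply_eq] at h1
  have h2 := congrArg Complex.re h1
  rw [Complex.re_sum, Complex.one_re] at h2
  rw [← h2]
  refine Finset.sum_congr rfl fun i _ => ?_
  rw [Matrix.star_apply, Complex.star_def, ← Complex.normSq_eq_conj_mul_self, Complex.ofReal_re,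
    Complex.normSq_eq_norm_sq]

theorem SD.row (h : SD X U l) (i : I) : ∑ j, ‖U i j‖ ^ 2 = 1 := by
  have h1 := congrFun (congrFun h.us i) i
  rw [Matrix.mul_apply, Matrix.one_apply_eq] at h1
  have h2 := congrArg Complex.re h1
  rw [Complex.re_sum, Complex.one_re] at h2
  rw [← h2]
  refine Finset.sum_congr rfl fun j _ => ?_
  rw [Matrix.star_apply, Complex.star_def, mul_comm, ← Complex.normSq_eq_conj_mul_self,
    Complex.ofReal_re, Complex.normSq_eq_norm_sq]

theorem SD.diag (h : SD X U l) (i : I) : (X i i).re = ∑ j, l j * ‖U i j‖ ^ 2 := by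
  rw [h.eq, Matrix.mul_apply, Complex.re_sum]
  refine Finset.sum_congr rfl fun j _ => ?_
  rw [Matrix.mul_diagonal, Matrix.star_apply, Complex.star_def, mul_right_comm, mul_comm (U i j),
    ← Complex.normSq_eq_conj_mul_self, ← Complex.ofReal_mul, Complex.ofReal_re,
    Complex.normSq_eq_norm_sq, mul_comm]

theorem SD.mulVec_col (h : SD X U l) (j i : I) :
    X.mulVec (fun i => U i j) i = l j * U i j := by
  have h1 : X * U = U * Matrix.diagonal (fun j => (l j : ℂ)) := by
    conv_lhs => rw [h.eq]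
    rw [Matrix.mul_assoc, h.su, Matrix.mul_one]
  have h2 := congrFun (congrFun h1 i) j
  rw [Matrix.mul_diagonal, Matrix.mul_apply] at h2
  rw [mul_comm, ← h2]
  rfl

/-- exchange of the sums -/
theorem SD.trQ (h : SD X U l) (Q : Finset I) :
    ∑ i ∈ Q, (X i i).re = ∑ j, l j * ∑ i ∈ Q, ‖U i j‖ ^ 2 := by
  simp only [h.diag, Finset.mul_sum]
  rw [Finset.sum_comm]

theorem SD.finrank_le (h : SD X U l) (m : ℕ) (c : ℝ) (F : Submodule ℂ (I → ℂ))
    (hF : ∀ v ∈ F, c ^ (m + 1) * ∑ i, ‖v i‖ ^ 2 ≤ (herm (X ^ (m + 1)) v v).re) :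
    Module.finrank ℂ F ≤ (Finset.univ.filter fun j => c ≤ l j).card := by
  let T : F →ₗ[ℂ] ({j // c ≤ l j} → ℂ) :=
    { toFun := fun v j => (star U).mulVec (v : I → ℂ) j
      map_add' := by
        intro v w; funext j
        simp [Matrix.mulVec_add]
      map_smul' := by
        intro a v; funext j
        simp [Matrix.mulVec_smul] }
  have hT : Function.Injective T := by
    rw [injective_iff_map_eq_zero]
    intro v hv
    have h0 : ∀ j, c ≤ l j → (star U).mulVec (v : I → ℂ) j = 0 := fun j hj => congrFun hv ⟨j, hj⟩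
    have h1 := hF v v.2
    rw [h.form, ← h.nrm, Finset.mul_sum] at h1
    have h2 : ∀ j ∈ Finset.univ, l j ^ (m + 1) * ‖(star U).mulVec (v : I → ℂ) j‖ ^ 2 ≤
        c ^ (m + 1) * ‖(star U).mulVec (v : I → ℂ) j‖ ^ 2 := by
      intro j _
      by_cases hj : c ≤ l j
      · simp [h0 j hj]
      · exact mul_le_mul_of_nonneg_right (pow_le_pow_left₀ (h.nonneg j) (not_le.1 hj).le _)
          (by positivity)
    have h3 := le_antisymm h1 (Finset.sum_le_sum h2)
    have h4 := (Finset.sum_eq_sum_iff_of_le h2).1 h3.symm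
    have h5 : ∀ j, (star U).mulVec (v : I → ℂ) j = 0 := by
      intro j
      by_cases hj : c ≤ l j
      · exact h0 j hj
      · have h6 := h4 j (Finset.mem_univ j)
        have h7 : l j ^ (m + 1) < c ^ (m + 1) :=
          pow_lt_pow_left₀ (not_le.1 hj) (h.nonneg j) (Nat.succ_ne_zero m)
        have h8 : (c ^ (m + 1) - l j ^ (m + 1)) * ‖(star U).mulVec (v : I → ℂ) j‖ ^ 2 = 0 := by
          linarith
        rcases mul_eq_zero.1 h8 with h9 | h9
        · linarith
        · simpa using h9
    have h6 := h.nrm (v : I → ℂ)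
    simp only [h5, norm_zero] at h6
    have h7 : ∀ i, (v : I → ℂ) i = 0 := by
      intro i
      have h8 : ∑ i, ‖(v : I → ℂ) i‖ ^ 2 = 0 := by rw [← h6]; simp
      have h9 := (Finset.sum_eq_zero_iff_of_nonneg (fun i _ => by positivity)).1 h8 i
        (Finset.mem_univ i)
      simpa using h9
    exact Subtype.ext (funext h7)
  have h1 := LinearMap.finrank_le_finrank_of_injective hT
  rw [Module.finrank_fintype_fun_eq_card, Fintype.card_subtype] at h1
  exact h1

end

theorem ubmat : S_UBMAT := by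
  intro I _ _ X m c ε Q F hX hc hε hεc hF hQ
  obtain ⟨U, l, h⟩ := exists_SD hX
  have h1 := h.finrank_le m c F hF
  have hpos : 0 ≤ c - ε ^ 2 / c := by
    rw [sub_nonneg, div_le_iff₀ hc]
    nlinarith
  have h2 : ((Finset.univ.filter fun j => c ≤ l j).card : ℝ) * (c - ε ^ 2 / c) ≤
      ∑ i ∈ Q, (X i i).re := by
    rw [h.trQ, ← nsmul_eq_mul, ← Finset.sum_const]
    refine le_trans ?_ (Finset.sum_le_sum_of_subset_of_nonneg (Finset.filter_subset (fun j => c ≤ l j) Finset.univ) ?_)
    · refine Finset.sum_le_sum fun j hj => ?_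
      have hj' : c ≤ l j := (Finset.mem_filter.1 hj).2
      have hlj : 0 < l j := lt_of_lt_of_le hc hj'
      have h3 := hQ (fun i => U i j)
      rw [h.col j, mul_one] at h3
      have h4 : ∑ i ∈ Qᶜ, ‖X.mulVec (fun i => U i j) i‖ ^ 2 =
          l j ^ 2 * ∑ i ∈ Qᶜ, ‖U i j‖ ^ 2 := by
        rw [Finset.mul_sum]
        refine Finset.sum_congr rfl fun i _ => ?_
        rw [h.mulVec_col, norm_mul, mul_pow, Complex.norm_real, Real.norm_eq_abs, sq_abs]
      rw [h4] at h3
      have h5 : ∑ i ∈ Q, ‖U i j‖ ^ 2 = 1 - ∑ i ∈ Qᶜ, ‖U i j‖ ^ 2 := by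
        rw [← h.col j, ← Finset.sum_add_sum_compl Q]; ring
      rw [h5]
      have h6 : l j * ∑ i ∈ Qᶜ, ‖U i j‖ ^ 2 ≤ ε ^ 2 / l j := by
        rw [le_div_iff₀ hlj]
        nlinarith
      have h7 : ε ^ 2 / l j ≤ ε ^ 2 / c := div_le_div_of_nonneg_left (by positivity) hc hj'
      nlinarith
    · intro j _ _
      exact mul_nonneg (h.nonneg j) (Finset.sum_nonneg fun i _ => by positivity)
  refine le_trans (mul_le_mul_of_nonneg_right ?_ hpos) h2
  exact_mod_cast h1

theorem lbmat : S_LBMAT := by
  intro I _ _ X m C κ Q hX hκ hC hb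
  obtain ⟨U, l, h⟩ := exists_SD hX
  let T : ({j // κ ≤ l j} → ℂ) →ₗ[ℂ] (I → ℂ) :=
    (Matrix.of fun (i : I) (j : {j // κ ≤ l j}) => U i j).mulVecLin
  have hTU : ∀ x (j : I), (star U).mulVec (T x) j = if hj : κ ≤ l j then x ⟨j, hj⟩ else 0 := by
    intro x j
    have h1 : (star U).mulVec (T x) =
        ((star U) * (Matrix.of fun (i : I) (j : {j // κ ≤ l j}) => U i j)).mulVec x := by
      rw [← Matrix.mulVec_mulVec]; rfl
    rw [h1, Matrix.mulVec, dotProduct]
    have h2 : ∀ j' : {j // κ ≤ l j},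
        ((star U) * (Matrix.of fun (i : I) (j : {j // κ ≤ l j}) => U i j)) j j' =
          if j = j' then 1 else 0 := by
      intro j'
      have h3 := congrFun (congrFun h.su j) j'
      rw [Matrix.mul_apply, Matrix.one_apply] at h3
      rw [Matrix.mul_apply, ← h3]
      rfl
    simp only [h2, ite_mul, one_mul, zero_mul]
    split_ifs with hj
    · rw [Finset.sum_eq_single ⟨j, hj⟩]
      · simp
      · intro b _ hb'
        rw [if_neg]
        intro hh
        exact hb' (Subtype.ext hh.symm)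
      · intro hh
        exact absurd (Finset.mem_univ _) hh
    · refine Finset.sum_eq_zero fun b _ => ?_
      rw [if_neg]
      intro hh
      exact hj (hh ▸ b.2)
  have hinj : Function.Injective T := by
    rw [injective_iff_map_eq_zero]
    intro x hx
    funext j
    have h1 := hTU x j
    rw [hx, Matrix.mulVec_zero, dif_pos j.2] at h1
    exact h1.symm
  refine ⟨LinearMap.range T, ?_, ?_⟩
  · rintro v ⟨x, rfl⟩
    rw [h.form, ← h.nrm, Finset.mul_sum]
    refine Finset.sum_le_sum fun j _ => ?_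
    by_cases hj : κ ≤ l j
    · exact mul_le_mul_of_nonneg_right (pow_le_pow_left₀ hκ.le hj _) (by positivity)
    · rw [hTU x j, dif_neg hj]
      simp
  · rw [LinearMap.finrank_range_of_inj hinj, Module.finrank_fintype_fun_eq_card,
      Fintype.card_subtype, h.trQ, ← Finset.sum_filter_add_sum_filter_not Finset.univ
        (fun j => κ ≤ l j)]
    have hlC : ∀ j, l j ≤ C := by
      intro j
      have h1 := hb (fun i => U i j)
      rw [h.col j, mul_one] at h1
      refine le_trans (le_of_eq ?_) h1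
      rw [herm]
      have h2 : X.mulVec (fun i => U i j) = fun i => (l j : ℂ) * U i j :=
        funext fun i => h.mulVec_col j i
      rw [h2, dotProduct, Complex.re_sum]
      have h3 : ∀ i, (star (fun i => U i j) i * ((l j : ℂ) * U i j)).re = l j * ‖U i j‖ ^ 2 := by
        intro i
        rw [Pi.star_apply, Complex.star_def, mul_left_comm, ← Complex.normSq_eq_conj_mul_self,
          ← Complex.ofReal_mul, Complex.ofReal_re, Complex.normSq_eq_norm_sq]
      rw [Finset.sum_congr rfl fun i _ => h3 i, ← Finset.mul_sum, h.col j, mul_one]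
    refine add_le_add ?_ ?_
    · rw [mul_comm, ← nsmul_eq_mul, ← Finset.sum_const]
      refine Finset.sum_le_sum fun j _ => ?_
      have h1 : ∑ i ∈ Q, ‖U i j‖ ^ 2 ≤ 1 := by
        rw [← h.col j]
        exact Finset.sum_le_sum_of_subset_of_nonneg (Finset.subset_univ _)
          (fun i _ _ => by positivity)
      have h2 : 0 ≤ ∑ i ∈ Q, ‖U i j‖ ^ 2 := Finset.sum_nonneg fun i _ => by positivity
      nlinarith [hlC j, h.nonneg j]
    · have h1 : ∑ j ∈ Finset.univ.filter (fun j => ¬ κ ≤ l j), l j * ∑ i ∈ Q, ‖U i j‖ ^ 2 ≤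
          ∑ j, κ * ∑ i ∈ Q, ‖U i j‖ ^ 2 := by
        refine le_trans (Finset.sum_le_sum fun j hj => ?_)
          (Finset.sum_le_sum_of_subset_of_nonneg (Finset.filter_subset _ _) ?_)
        · exact mul_le_mul_of_nonneg_right (not_le.1 (Finset.mem_filter.1 hj).2).le
            (Finset.sum_nonneg fun i _ => by positivity)
        · intro j _ _
          exact mul_nonneg hκ.le (Finset.sum_nonneg fun i _ => by positivity)
      refine le_trans h1 (le_of_eq ?_)
      rw [← Finset.mul_sum, Finset.sum_comm]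
      simp [h.row]

end Pool.Agent.Y448.RK
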